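import Pool.Agent.Work.MP_30f4fc_nt.Main

/-!
# Lehmer's problem for polynomials with a small Galois group over a totally real or CM field
-/

namespace Pool.Agent.Results.MP_30f4fc_nt.RelativeGaloisGroup

open Polynomial

/-- Let `P` be a monic irreducible integer polynomial with `s` roots outside the closed unit disk,
and let `F` be a totally real or CM algebraic extension of `ℚ` (for instance `F = ℚ`). Then
`M(P) = 1`, or `P` is not reciprocal and `M(P) ≥ (1 + √17) / 4 = 1.28...`, or the Galois group of
`P` over `F` has order at least `2 ^ (deg P / (2 s) - 1)`. -/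
theorem result (P : ℤ[X]) (hm : P.Monic) (hirr : Irreducible P)
    (F : Type) [Field F] [CharZero F] [Algebra.IsAlgebraic ℚ F]
    (hF : NumberField.IsTotallyReal F ∨ NumberField.IsCMField F) :
    (P.map (Int.castRingHom ℂ)).mahlerMeasure = 1 ∨
    (P ≠ C (P.coeff 0) * P.reverse ∧
      (1 + Real.sqrt 17) / 4 ≤ (P.map (Int.castRingHom ℂ)).mahlerMeasure) ∨
    (P.natDegree : ℝ) ≤
      2 * (Multiset.card ((P.map (Int.castRingHom ℂ)).roots.filter fun z => 1 < ‖z‖) : ℝ)
        * (1 + Real.logb 2 (Nat.card (P.map (algebraMap ℤ F)).Gal)) :=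
  LehmerLevel.main P hm hirr F hF

end Pool.Agent.Results.MP_30f4fc_nt.RelativeGaloisGroup
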